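import Pool.Agent.GD.Fin.Lim
import Pool.Agent.XE2.Final2

/-!
# General d, the final part: compactness

`Zero d`: near every critical vector of densities the dimension is at most `max 0 a_d`.  Then this holds for
all sequences of exponents `< d` with `a_j > 0` (`j < d`) and a large number of variables: off the layer by
`xe2`; a sequence of counterexamples in the layer has a subsequence whose densities converge, the limit is
critical by `lim_A`, `Pool.Agent.XD.layer` and `Pool.Agent.XD.step`.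
-/

set_option autoImplicit false

namespace Pool.Agent.GD.FIN

open Finset Filter Topology Pool.Agent.XD

/-- The result for the critical vectors of densities. -/
def Zero (d : ℕ) : Prop := ∀ kap : ℕ → ℝ, (∀ x, 0 ≤ kap x) → (∀ x, kap x ≠ 0 → 2 ≤ x ∧ x < d) →
  gg kap d = 0 → (∀ D < d, 0 < gg kap D) → ∃ (η : ℝ) (n₀ : ℕ), 0 < η ∧
    ∀ n, n₀ ≤ n → ∀ (e : ℕ → ℕ) (t : ℕ), (∀ s, 2 ≤ e s) → (∀ s < t, e s < d) →
      (∀ x, |(cnt e t x : ℝ) - kap x * (n : ℝ) ^ x| ≤ η * (n : ℝ) ^ x) →
        (FF e n t d : ℤ) ≤ max 0 (A e n t d)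

theorem cnt_le {e : ℕ → ℕ} (he : ∀ s, 1 ≤ e s) {m t J : ℕ} (h : ∀ j < J, 0 ≤ A e m t j)
    {a : ℕ} (ha : a < J) : cnt e t a ≤ m ^ a := by
  have key : ∀ T, T ≤ t → A e m T a + (cnt e T a : ℤ) ≤ (Nat.multichoose m a : ℤ) := by
    intro T
    induction T with
    | zero =>
      intro _
      simp [cnt, A_zero]
    | succ T ih =>
      intro hT
      have h1 := ih (by omega)
      have hc : cnt e (T + 1) a = cnt e T a + if e T = a then 1 else 0 := by
        unfold cnt
        rw [range_add_one, filter_insert]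
        split_ifs with hh
        · rw [card_insert_of_notMem (by simp)]
        · simp
      rw [A_succ, hc]
      by_cases h2 : e T = a
      · rw [if_pos h2, if_pos h2.le, h2, Nat.sub_self, A_deg_zero he]
        push_cast
        linarith
      · rw [if_neg h2]
        by_cases h3 : e T ≤ a
        · rw [if_pos h3]
          have h4 : A e m t (a - e T) ≤ A e m T (a - e T) :=
            A_anti_t he h (by omega) (by omega)
          have h5 := h (a - e T) (by omega)
          push_cast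
          linarith
        · rw [if_neg h3]
          push_cast
          linarith
  have h1 := key t le_rfl
  have h2 := h a ha
  have h3 : (Nat.multichoose m a : ℤ) ≤ (m : ℤ) ^ a := by exact_mod_cast multichoose_le_pow m a
  have h4 : (cnt e t a : ℤ) ≤ ((m ^ a : ℕ) : ℤ) := by
    push_cast
    linarith
  exact_mod_cast h4

theorem cnt_zero {e : ℕ → ℕ} {t x : ℕ} (h : ∀ s < t, e s ≠ x) : cnt e t x = 0 := by
  unfold cnt
  rw [card_eq_zero, filter_eq_empty_iff]
  intro s hs
  rw [mem_range] at hs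
  exact h s hs

theorem log_lim (C : ℝ) {m : ℕ → ℕ} (hm : Tendsto m atTop atTop) :
    Tendsto (fun i => C * Real.log (m i) / (m i : ℝ)) atTop (𝓝 0) := by
  have h1 : Tendsto (fun i => (m i : ℝ)) atTop atTop := tendsto_natCast_atTop_atTop.comp hm
  have h2 : Tendsto (fun x : ℝ => Real.log x / x) atTop (𝓝 0) := by
    have := Real.isLittleO_log_id_atTop.tendsto_div_nhds_zero
    exact this
  have h3 := (h2.comp h1).const_mul C
  rw [mul_zero] at h3
  refine h3.congr fun i => ?_
  simp only [Function.comp]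
  ring

/-- No exponents `≥ d`. -/
theorem upper_big {d : ℕ} (hZ : Zero d) : ∃ n₀ : ℕ, ∀ m, n₀ ≤ m → ∀ e : ℕ → ℕ, (∀ s, 2 ≤ e s) →
    ∀ t, (∀ s < t, e s < d) → (∀ j < d, 0 < A e m t j) →
      (FF e m t d : ℤ) ≤ max 0 (A e m t d) := by
  by_contra hcon
  push Not at hcon
  choose m hm e he t ht hpos hbad using hcon
  have he1 : ∀ i s, 1 ≤ e i s := fun i s => by have := he i s; omega
  -- `d ≥ 3`
  have hd3 : 3 ≤ d := by
    by_contra hd
    have ht0 : t 0 = 0 := by
      by_contra h1
      have h2 := ht 0 0 (by omega)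
      have h3 := he 0 0
      omega
    have h1 := hbad 0
    have h2 := (sys_FF d (e 0) (he1 0)).zero (m 0) d le_rfl
    rw [ht0, h2, A_zero] at h1
    exact absurd (le_max_right _ _) (not_le.2 h1)
  -- the densities
  obtain ⟨κ, hκ⟩ : ∃ κ : ℕ → ℕ → ℝ, κ = fun i x => (cnt (e i) (t i) x : ℝ) / (m i : ℝ) ^ x :=
    ⟨_, rfl⟩
  have hκ0 : ∀ i x, (x < 2 ∨ d ≤ x) → κ i x = 0 := by
    intro i x hx
    rw [hκ]
    simp only
    rw [cnt_zero, Nat.cast_zero, zero_div]
    intro s hs
    have h1 := ht i s hs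
    have h2 := he i s
    omega
  have hκK : ∀ i, κ i ∈ Set.pi Set.univ (fun _ : ℕ => Set.Icc (0 : ℝ) 1) := by
    intro i x _
    rcases Nat.lt_or_ge x d with hx | hx
    · rw [hκ]
      refine ⟨by positivity, ?_⟩
      have h1 : cnt (e i) (t i) x ≤ (m i) ^ x :=
        cnt_le (he1 i) (J := d) (fun j hj => (hpos i j hj).le) hx
      refine div_le_one_of_le₀ ?_ (by positivity)
      exact_mod_cast h1
    · rw [hκ0 i x (Or.inr hx)]
      exact ⟨le_rfl, zero_le_one⟩
  obtain ⟨kap, hkap, φ, hφ, hlim⟩ :=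
    (isCompact_univ_pi (fun _ : ℕ => isCompact_Icc (a := (0 : ℝ)) (b := 1))).tendsto_subseq hκK
  rw [tendsto_pi_nhds] at hlim
  have hmt : Tendsto (fun i => m (φ i)) atTop atTop := by
    have h1 : Tendsto m atTop atTop := tendsto_atTop_mono hm tendsto_id
    exact h1.comp hφ.tendsto_atTop
  have hlim' : ∀ x, Tendsto (fun i => (cnt (e (φ i)) (t (φ i)) x : ℝ) / (m (φ i) : ℝ) ^ x) atTop
      (𝓝 (kap x)) := by
    intro x
    have h1 := hlim x
    rw [hκ] at h1
    exact h1
  have hA := lim_A (m := fun i => m (φ i)) (e := fun i => e (φ i)) (t := fun i => t (φ i)) hmt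
    (fun i s => he _ s) hlim'
  -- the layer
  obtain ⟨C, hC, n₁, hxe⟩ := Pool.Agent.XE2.xe2 d
  have hm1 := hmt.eventually_ge_atTop (max n₁ 1)
  have hlayer : ∀ᶠ i in atTop, -(C * (m (φ i) : ℝ) ^ (d - 1)) < (A (e (φ i)) (m (φ i)) (t (φ i)) d : ℝ) ∧
      (A (e (φ i)) (m (φ i)) (t (φ i)) d : ℝ) <
        C * (m (φ i) : ℝ) ^ (d - 1) * Real.log (m (φ i)) := by
    filter_upwards [hm1] with i hi
    obtain ⟨h1, h2⟩ := hxe (m (φ i)) ((le_max_left _ _).trans hi) (e (φ i)) (he _) (t (φ i))
      (fun s hs => (ht _ s hs).le)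
    have h3 := hbad (φ i)
    constructor
    · by_contra hc
      push Not at hc
      rw [h2 (Or.inr hc)] at h3
      exact absurd (le_max_left _ _) (not_le.2 h3)
    · by_contra hc
      push Not at hc
      rw [h1 (hpos _) hc] at h3
      exact absurd (le_max_right _ _) (not_le.2 h3)
  have hpowd : ∀ i, (m (φ i) : ℝ) ^ d = (m (φ i) : ℝ) ^ (d - 1) * (m (φ i) : ℝ) := by
    intro i
    rw [← pow_succ]
    congr 1
    omega
  have hgd : gg kap d = 0 := by
    refine tendsto_nhds_unique (hA d) ?_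
    have h1 : Tendsto (fun i => C * ((m (φ i) : ℝ) ^ 1)⁻¹) atTop (𝓝 0) := by
      have := (pow_inv_lim hmt (k := 1) one_ne_zero).const_mul C
      rwa [mul_zero] at this
    have h1' : Tendsto (fun i => -(C * ((m (φ i) : ℝ) ^ 1)⁻¹)) atTop (𝓝 0) := by
      have := h1.neg
      rwa [neg_zero] at this
    refine tendsto_of_tendsto_of_tendsto_of_le_of_le' h1' (log_lim C hmt) ?_ ?_
    · filter_upwards [hlayer, hm1] with i hi hi1
      have hmi : (0 : ℝ) < m (φ i) := by
        have : 1 ≤ m (φ i) := (le_max_right _ _).trans hi1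
        exact_mod_cast this
      rw [le_div_iff₀ (by positivity), hpowd, pow_one]
      have h2 : -(C * (m (φ i) : ℝ)⁻¹) * ((m (φ i) : ℝ) ^ (d - 1) * (m (φ i) : ℝ)) =
          -(C * (m (φ i) : ℝ) ^ (d - 1)) := by
        field_simp
      rw [h2]
      exact hi.1.le
    · filter_upwards [hlayer, hm1] with i hi hi1
      have hmi : (0 : ℝ) < m (φ i) := by
        have : 1 ≤ m (φ i) := (le_max_right _ _).trans hi1
        exact_mod_cast this
      rw [div_le_div_iff₀ (by positivity) hmi, hpowd]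
      nlinarith [hi.2]
  have hgpos : ∀ D < d, 0 < gg kap D := by
    obtain ⟨c, hc, n₂, hL⟩ := layer (d - 1)
    obtain ⟨c', hc', n₃, hS⟩ := step (d - 1) c hc
    obtain ⟨n₄, hn₄⟩ := exists_nat_gt (C / c')
    have hm2 := hmt.eventually_ge_atTop (n₂ + n₃ + n₄ + 1)
    intro D hD
    refine lt_of_lt_of_le (lt_min hc hc') (ge_of_tendsto (hA D) ?_)
    filter_upwards [hlayer, hm2] with i hi hi1
    have hmi : (0 : ℝ) < m (φ i) := by
      have : 1 ≤ m (φ i) := by omega
      exact_mod_cast this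
    have h1 : ∀ j < d - 1, c * (m (φ i) : ℝ) ^ j ≤ (A (e (φ i)) (m (φ i)) (t (φ i)) j : ℝ) :=
      (hL (m (φ i)) (by omega) (e (φ i)) (he _) (t (φ i))).1 fun j hj => hpos _ j (by omega)
    rw [le_div_iff₀ (by positivity)]
    rcases Nat.lt_or_ge D (d - 1) with hD1 | hD1
    · exact (mul_le_mul_of_nonneg_right (min_le_left _ _) (by positivity)).trans (h1 D hD1)
    · obtain rfl : D = d - 1 := by omega
      refine (mul_le_mul_of_nonneg_right (min_le_right _ _) (by positivity)).trans ?_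
      by_contra hcc
      push Not at hcc
      have h2 := hS (m (φ i)) (by omega) (e (φ i)) (he _) (t (φ i)) h1 hcc.le
      have h3 : d - 1 + 1 = d := by omega
      rw [h3, hpowd] at h2
      have h4 : C < c' * m (φ i) := by
        have h5 : (n₄ : ℝ) ≤ m (φ i) := by exact_mod_cast (by omega : n₄ ≤ m (φ i))
        rw [div_lt_iff₀ hc'] at hn₄
        nlinarith
      have h5 : (0 : ℝ) < (m (φ i) : ℝ) ^ (d - 1) := by positivity
      nlinarith [hi.1]
  have hk0 : ∀ x, 0 ≤ kap x := fun x => (hkap x (Set.mem_univ x)).1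
  have hks : ∀ x, (x < 2 ∨ d ≤ x) → kap x = 0 := by
    intro x hx
    refine tendsto_nhds_unique (hlim x) ?_
    refine tendsto_const_nhds.congr fun i => ?_
    exact (hκ0 (φ i) x hx).symm
  obtain ⟨η, n₀, hη, hfin⟩ := hZ kap hk0 (fun x hx => by
    by_contra hc
    exact hx (hks x (by omega))) hgd hgpos
  have h1 : ∀ᶠ i in atTop, ∀ x ∈ range d,
      |(cnt (e (φ i)) (t (φ i)) x : ℝ) / (m (φ i) : ℝ) ^ x - kap x| < η := by
    rw [Filter.eventually_all_finset]
    intro x _
    have h2 := (Metric.tendsto_nhds.1 (hlim' x)) η hη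
    filter_upwards [h2] with i hi
    rwa [Real.dist_eq] at hi
  obtain ⟨i, hi, hi1⟩ := (h1.and (hmt.eventually_ge_atTop (n₀ + 1))).exists
  have hmi : (0 : ℝ) < m (φ i) := by
    have : 1 ≤ m (φ i) := by omega
    exact_mod_cast this
  refine absurd (hfin (m (φ i)) (by omega) (e (φ i)) (t (φ i)) (he _) (ht _) fun x => ?_)
    (not_le.2 (hbad (φ i)))
  rcases Nat.lt_or_ge x d with hx | hx
  · have h2 := hi x (mem_range.2 hx)
    have h3 : (cnt (e (φ i)) (t (φ i)) x : ℝ) - kap x * (m (φ i) : ℝ) ^ x =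
        ((cnt (e (φ i)) (t (φ i)) x : ℝ) / (m (φ i) : ℝ) ^ x - kap x) * (m (φ i) : ℝ) ^ x := by
      field_simp
    rw [h3, abs_mul, abs_of_pos (by positivity : (0 : ℝ) < (m (φ i) : ℝ) ^ x)]
    exact mul_le_mul_of_nonneg_right h2.le (by positivity)
  · have h2 : cnt (e (φ i)) (t (φ i)) x = 0 := by
      refine cnt_zero fun s hs => ?_
      have := ht (φ i) s hs
      omega
    rw [h2, hks x (Or.inr hx), Nat.cast_zero, zero_mul, sub_zero, abs_zero]
    positivity

end Pool.Agent.GD.FIN
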