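import Pool.Agent.GD.Fin.Cpt
import Pool.Agent.H74.V9.Fixed

/-!
# General d, the final part: simple points, and the dimension for all configurations
-/

set_option autoImplicit false

namespace Pool.Agent.GD.FIN

open Finset Pool.Agent.XD Pool.Agent.H18.Fat Pool.Agent.H21.HD Pool.Agent.H21.NX
  Pool.Agent.H74.V8C Pool.Agent.H74.V9

/-- Without the simple points (as `Pool.Agent.H74.V9.simple_exact`). -/
theorem simple_exact2 (r d k : ℕ) (m : Fin k → ℕ) (hd : 2 ≤ d) (hm : ∀ i, 1 ≤ m i ∧ m i ≤ d) :
    ∃ (k' : ℕ) (m' : Fin k' → ℕ), (∀ i, 1 ≤ m' i ∧ m' i ≤ d) ∧ (∀ i, m' i ≠ 1) ∧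
      (univ.filter fun i => m' i = d).card = (univ.filter fun i => m i = d).card ∧
      (∀ j < d, fro r (fun i => d + 1 - m' i) univ j = fro r (fun i => d + 1 - m i) univ j) ∧
      fro r (fun i => d + 1 - m' i) univ d =
        fro r (fun i => d + 1 - m i) univ d + (univ.filter fun i => m i = 1).card ∧
      gdim r d m ≤ gdim r d m' - (univ.filter fun i => m i = 1).card := by
  classical
  obtain ⟨S, hS⟩ : ∃ S : Finset (Fin k), S = univ.filter fun i => m i = 1 := ⟨_, rfl⟩
  have hSm : ∀ i, i ∈ S ↔ m i = 1 := by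
    intro i
    rw [hS, mem_filter]
    simp
  obtain ⟨T, hT⟩ : ∃ T : Finset (Fin k), T = univ.filter fun i => m i ≠ 1 := ⟨_, rfl⟩
  have hTm : ∀ i, i ∈ T ↔ m i ≠ 1 := by
    intro i
    rw [hT, mem_filter]
    simp
  have hdis : Disjoint T S := by
    rw [disjoint_left]
    intro i hi hi'
    rw [hTm] at hi
    rw [hSm] at hi'
    exact hi hi'
  have hun : (univ : Finset (Fin k)) = T ∪ S := by
    ext i
    rw [mem_union, hTm, hSm]
    simp only [mem_univ, true_iff]
    tauto
  obtain ⟨t, ht⟩ : ∃ t, t = Fintype.card {i : Fin k // m i ≠ 1} := ⟨_, rfl⟩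
  subst ht
  let g : {i : Fin k // m i ≠ 1} ≃ Fin (Fintype.card {i : Fin k // m i ≠ 1}) := Fintype.equivFin _
  let g' : {i : Fin k // ¬ m i ≠ 1} ≃ Fin (Fintype.card {i : Fin k // ¬ m i ≠ 1}) :=
    Fintype.equivFin _
  let f : Fin (Fintype.card {i : Fin k // m i ≠ 1}) ↪ Fin k :=
    g.symm.toEmbedding.trans (Function.Embedding.subtype _)
  have hf : (univ : Finset (Fin (Fintype.card {i : Fin k // m i ≠ 1}))).map f = T := by
    ext i
    rw [mem_map, hTm]
    constructor
    · rintro ⟨j, _, rfl⟩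
      exact (g.symm j).2
    · intro hi
      refine ⟨g ⟨i, hi⟩, mem_univ _, ?_⟩
      show ((g.symm (g ⟨i, hi⟩) : {i : Fin k // m i ≠ 1}) : Fin k) = i
      rw [Equiv.symm_apply_apply]
  have hfr : ∀ j, fro r (fun i => d + 1 - m (f i)) univ j = fro r (fun i => d + 1 - m i) T j := by
    intro j
    rw [← hf, Pool.Agent.H74.V8C.fro_map]
  have hcard : Fintype.card {i : Fin k // ¬ m i ≠ 1} = S.card := by
    rw [Fintype.card_subtype, hS]
    congr 1
    ext i
    rw [mem_filter, mem_filter, not_not]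
  rw [← hS]
  refine ⟨_, fun i => m (f i), fun i => hm _, fun i => (g.symm i).2, ?_, ?_, ?_, ?_⟩
  · have h1 : (univ.filter fun i => m i = d) = (univ.filter fun i => m (f i) = d).map f := by
      ext i
      rw [mem_map, mem_filter]
      constructor
      · rintro ⟨_, hi⟩
        have h2 : i ∈ T := by
          rw [hTm]
          omega
        rw [← hf, mem_map] at h2
        obtain ⟨j, _, rfl⟩ := h2
        exact ⟨j, by rw [mem_filter]; exact ⟨mem_univ _, hi⟩, rfl⟩
      · rintro ⟨j, hj, rfl⟩
        rw [mem_filter] at hj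
        exact ⟨mem_univ _, hj.2⟩
    rw [h1, card_map]
  · intro j hj
    have h0 : ∀ D : DecidableEq (Fin k), @Union.union _ (@Finset.instUnion _ D) T S =
        T.disjUnion S hdis := fun D => (disjUnion_eq_union T S hdis).symm
    have h1 := fro_union_large r j (fun i => d + 1 - m i) T S hdis fun i hi => by
      rw [hSm] at hi
      omega
    rw [h0] at h1
    rw [hfr, hun, h0, h1]
  · have h1 : fro r (fun i => d + 1 - m i) (T ∪ S) d =
        fro r (fun i => d + 1 - m i) T d - S.card :=
      fro_simple' r d (fun i => d + 1 - m i) T S hdis (fun i _ => by have := hm i; omega) (by omega)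
        fun i hi => by
          rw [hSm] at hi
          omega
    rw [hfr, hun, h1]
    ring
  · have h1 := gdim_simples r d (fun i => m (f i)) (Fintype.card {i : Fin k // ¬ m i ≠ 1})
    let e : Fin k ≃ Fin (Fintype.card {i : Fin k // m i ≠ 1}) ⊕
        Fin (Fintype.card {i : Fin k // ¬ m i ≠ 1}) :=
      (Equiv.sumCompl fun i : Fin k => m i ≠ 1).symm.trans (Equiv.sumCongr g g')
    have h2 := gdim_comp_equiv r d e (Sum.elim (fun i => m (f i))
      fun _ : Fin (Fintype.card {i : Fin k // ¬ m i ≠ 1}) => 1)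
    have h3 : (fun i => Sum.elim (fun i => m (f i))
        (fun _ : Fin (Fintype.card {i : Fin k // ¬ m i ≠ 1}) => 1) (e i)) = m := by
      funext i
      by_cases hi : m i ≠ 1
      · have h4 : e i = Sum.inl (g ⟨i, hi⟩) := by
          show Sum.map g g' ((Equiv.sumCompl fun i : Fin k => m i ≠ 1).symm i) = _
          rw [Equiv.sumCompl_symm_apply_of_pos (a := i) hi]
          rfl
        rw [h4]
        show m ((g.symm (g ⟨i, hi⟩) : {i : Fin k // m i ≠ 1}) : Fin k) = m i
        rw [Equiv.symm_apply_apply]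
      · have h4 : e i = Sum.inr (g' ⟨i, hi⟩) := by
          show Sum.map g g' ((Equiv.sumCompl fun i : Fin k => m i ≠ 1).symm i) = _
          rw [Equiv.sumCompl_symm_apply_of_neg (a := i) hi]
          rfl
        rw [h4]
        show 1 = m i
        rw [not_not] at hi
        exact hi.symm
    rw [h3] at h2
    rw [h2, ← hcard]
    exact h1

theorem fro_fin (r k : ℕ) (e : ℕ → ℕ) (j : ℕ) :
    fro r (fun s : Fin k => e s) univ j = A e (r + 1) k j := by
  rw [← fro_range, ← Nat.Iio_eq_range, ← Fin.map_valEmbedding_univ, Pool.Agent.H74.V8C.fro_map]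
  rfl

/-- All exponents `≤ d`. -/
theorem upper {d : ℕ} (hZ : Zero d) : ∃ n₀ : ℕ, ∀ m, n₀ ≤ m → ∀ e : ℕ → ℕ, (∀ s, 2 ≤ e s) →
    ∀ t, (∀ s < t, e s ≤ d) → (∀ j < d, 0 < A e m t j) →
      (FF e m t d : ℤ) ≤ max 0 (A e m t d) := by
  classical
  obtain ⟨n₀, h₀⟩ := upper_big hZ
  refine ⟨n₀ + 1, fun m hm e he t ht hpos => ?_⟩
  rcases Nat.lt_or_ge d 2 with hd | hd
  · have ht0 : t = 0 := by
      by_contra h1
      have h2 := ht 0 (by omega)
      have h3 := he 0
      omega
    have h2 := (sys_FF d e fun s => by have := he s; omega).zero m d le_rfl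
    rw [ht0, h2, A_zero]
    exact le_max_right _ _
  obtain ⟨r, rfl⟩ : ∃ r, m = r + 1 := ⟨m - 1, by omega⟩
  obtain ⟨M, hM⟩ : ∃ M : Fin t → ℕ, M = fun s : Fin t => d + 1 - e s := ⟨_, rfl⟩
  have hMb : ∀ i, 1 ≤ M i ∧ M i ≤ d := by
    intro i
    rw [hM]
    have h1 := he i
    have h2 := ht i i.2
    constructor
    · show 1 ≤ d + 1 - e i
      omega
    · show d + 1 - e i ≤ d
      omega
  obtain ⟨k', m', hm', hne, hcard, hj, hdd, hg⟩ := simple_exact2 r d t M hd hMb
  have hmd : ∀ i, m' i ≠ d := by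
    have h1 : (univ.filter fun i => M i = d) = ∅ := by
      rw [filter_eq_empty_iff]
      intro i _
      rw [hM]
      have h1 := he i
      have h2 := ht i i.2
      show ¬ (d + 1 - e i = d)
      omega
    rw [h1, card_empty, card_eq_zero, filter_eq_empty_iff] at hcard
    exact fun i => hcard (mem_univ i)
  obtain ⟨e', he'⟩ : ∃ e' : ℕ → ℕ, e' = fun s => if h : s < k' then d + 1 - m' ⟨s, h⟩ else 2 :=
    ⟨_, rfl⟩
  have hes : ∀ s : Fin k', e' s = d + 1 - m' s := by
    intro s
    rw [he']
    exact dif_pos s.2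
  have he'2 : ∀ s, 2 ≤ e' s := by
    intro s
    rw [he']
    show 2 ≤ if h : s < k' then d + 1 - m' ⟨s, h⟩ else 2
    split_ifs with h
    · have h1 := hm' ⟨s, h⟩
      have h2 := hmd ⟨s, h⟩
      omega
    · exact le_rfl
  have he'd : ∀ s < k', e' s < d := by
    intro s hs
    have h1 := hes ⟨s, hs⟩
    have h2 := hm' ⟨s, hs⟩
    have h3 := hne ⟨s, hs⟩
    have h4 : e' s = d + 1 - m' ⟨s, hs⟩ := h1
    omega
  have hA' : ∀ j, fro r (fun i => d + 1 - m' i) univ j = A e' (r + 1) k' j := by
    intro j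
    rw [← fro_fin]
    congr 1
    funext s
    exact (hes s).symm
  have hA : ∀ j, fro r (fun i => d + 1 - M i) univ j = A e (r + 1) t j := by
    intro j
    rw [← fro_fin]
    congr 1
    funext s
    rw [hM]
    have h1 := he s
    have h2 := ht s s.2
    show d + 1 - (d + 1 - e s) = e s
    omega
  have hF' : FF e' (r + 1) k' d = gdim r d m' := by
    show gdim r d (fun s : Fin k' => d + 1 - e' s) = gdim r d m'
    congr 1
    funext s
    rw [hes s]
    have := hm' s
    omega
  have hF : FF e (r + 1) t d = gdim r d M := by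
    rw [hM]
    rfl
  have h1 := h₀ (r + 1) (by omega) e' he'2 k' he'd fun j hjd => by
    rw [← hA', hj j hjd, hA]
    exact hpos j hjd
  rw [hF', ← hA', hdd, hA] at h1
  rw [hF]
  obtain ⟨c, hc⟩ : ∃ c, c = (univ.filter fun i => M i = 1).card := ⟨_, rfl⟩
  rw [← hc] at h1 hg
  omega

/-- The dimension for all configurations with a large number of variables. -/
theorem complete {d : ℕ} (hZ : Zero d) : ∃ n₀ : ℕ, ∀ (r k : ℕ) (m : Fin k → ℕ),
    (∀ i, 1 ≤ m i ∧ m i ≤ d) →
    ∀ N : ℕ, N + (univ.filter fun i => m i = d).card = r + 1 → n₀ ≤ N →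
      (¬ (∀ j ≤ d, 0 < fro r (fun i => d + 1 - m i) univ j) →
        ForGeneralPoints r k fun p => Module.finrank ℂ (fatForms r d p m) = 0) ∧
      ((∀ j ≤ d, 0 < fro r (fun i => d + 1 - m i) univ j) →
        ForGeneralPoints r k fun p => (Module.finrank ℂ (fatForms r d p m) : ℤ) =
          fro r (fun i => d + 1 - m i) univ d) := by
  classical
  obtain ⟨n₁, h₁⟩ := upper hZ
  obtain ⟨C, hC, n₂, hX⟩ := Pool.Agent.XE2.classify3 d
  obtain ⟨n₃, hL⟩ := Pool.Agent.XD.classify d 1 one_pos
  refine ⟨n₁ + n₂ + n₃ + 1, fun r k m hm N hN hn => ?_⟩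
  -- `a_1 = N`
  have hone : fro r (fun i => d + 1 - m i) univ 1 = (N : ℤ) := by
    have h1 := fro_one_add r (fun i => d + 1 - m i) univ fun i _ => by
      have := hm i
      omega
    have h2 : (univ.filter fun i => d + 1 - m i = 1) = univ.filter fun i => m i = d := by
      refine filter_congr fun i _ => ?_
      have := hm i
      omega
    rw [h2] at h1
    have h3 : (N : ℤ) + ((univ.filter fun i => m i = d).card : ℤ) = r + 1 := by exact_mod_cast hN
    linarith
  obtain ⟨e, m', t, he, hed, _, hm1, hA, hg⟩ := exists_seq r d k m hm (by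
    rw [hone]
    exact_mod_cast (by omega : 0 < N))
  have hmN : m' = N := by
    rw [hone] at hm1
    exact_mod_cast hm1
  subst hmN
  have hgen : ForGeneralPoints r k fun p =>
      Module.finrank ℂ (fatForms r d p m) = FF e m' t d := by
    rw [← hg]
    exact gen_gdim r d m
  obtain ⟨hV, -⟩ := hX r k m hm m' hone.symm (by omega)
  obtain ⟨-, hLow, -⟩ := hL r k m hm (by rw [hone]; exact_mod_cast (by omega))
  constructor
  · intro hneg
    by_cases h5 : ∀ j < d, 0 < fro r (fun i => d + 1 - m i) univ j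
    · have h6 : fro r (fun i => d + 1 - m i) univ d ≤ 0 := by
        by_contra hcon
        push Not at hcon
        refine hneg fun j hj => ?_
        rcases lt_or_eq_of_le hj with hj | rfl
        · exact h5 j hj
        · exact hcon
      have h7 := h₁ m' (by omega) e he t hed fun j hj => by
        rw [← hA]
        exact h5 j hj
      rw [← hA, max_eq_left h6] at h7
      have h8 : FF e m' t d = 0 := by omega
      rw [h8] at hgen
      exact hgen
    · push Not at h5
      exact hV (Or.inl h5)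
  · intro hpos
    have h7 := h₁ m' (by omega) e he t hed fun j hj => by
      rw [← hA]
      exact hpos j hj.le
    rw [← hA, max_eq_right (hpos d le_rfl).le] at h7
    have h8 : Gen r (Fin k) fun p => (Module.finrank ℂ (fatForms r d p m) : ℤ) =
        fro r (fun i => d + 1 - m i) univ d := by
      have h9 : Gen r (Fin k) fun p => Module.finrank ℂ (fatForms r d p m) = FF e m' t d := hgen
      have h10 : Gen r (Fin k) fun p => fro r (fun i => d + 1 - m i) univ d ≤
          (Module.finrank ℂ (fatForms r d p m) : ℤ) := hLow hpos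
      refine (h9.and h10).mono ?_
      rintro p ⟨hq1, hq2⟩
      rw [hq1] at hq2 ⊢
      omega
    exact h8

end Pool.Agent.GD.FIN
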