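import Pool.Agent.GD.Cls
import Pool.Agent.XD.Num.Layer

/-!
# General d, the final part: the limits of the numbers `A / m^D`

If `m → ∞` and `#{s | e s = x} / m^x → kap x` for all `x` then `A e m t D / m^D → gg kap D`.
-/

set_option autoImplicit false

namespace Pool.Agent.GD.FIN

open Finset Filter Topology Pool.Agent.XD

/-- The number of the exponents `x`. -/
def cnt (e : ℕ → ℕ) (t x : ℕ) : ℕ := ((range t).filter fun s => e s = x).card

theorem sum_dvd (e : ℕ → ℕ) (t k : ℕ) (hk : k ≠ 0) :
    ∑ s ∈ (range t).filter (fun s => e s ∣ k), e s = ∑ x ∈ k.divisors, x * cnt e t x := by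
  rw [← sum_fiberwise_of_maps_to (s := (range t).filter (fun s => e s ∣ k)) (t := k.divisors)
    (g := e)]
  · refine sum_congr rfl fun x hx => ?_
    have h1 : ((range t).filter (fun s => e s ∣ k)).filter (fun s => e s = x) =
        (range t).filter fun s => e s = x := by
      ext s
      simp only [mem_filter]
      constructor
      · rintro ⟨⟨h1, _⟩, h3⟩
        exact ⟨h1, h3⟩
      · rintro ⟨h1, h3⟩
        exact ⟨⟨h1, by rw [h3]; exact Nat.dvd_of_mem_divisors hx⟩, h3⟩
    rw [h1, sum_congr rfl (fun s hs => (mem_filter.1 hs).2), sum_const, smul_eq_mul, mul_comm]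
    rfl
  · intro s hs
    rw [mem_filter] at hs
    exact Nat.mem_divisors.2 ⟨hs.2, hk⟩

theorem gg_zero (kap : ℕ → ℝ) : gg kap 0 = 1 := by rw [gg]

theorem gg_succ (kap : ℕ → ℝ) (D : ℕ) : ((D : ℝ) + 1) * gg kap (D + 1) =
    gg kap D - ∑ l ∈ range D, ((l : ℝ) + 2) * kap (l + 2) * gg kap (D - 1 - l) := by
  rw [gg]
  have h1 : ∑ x : Fin D, ((D + 1 - x.1 : ℕ) : ℝ) * kap (D + 1 - x.1) * gg kap x.1 =
      ∑ l ∈ range D, ((l : ℝ) + 2) * kap (l + 2) * gg kap (D - 1 - l) := by
    rw [Fin.sum_univ_eq_sum_range (fun x => ((D + 1 - x : ℕ) : ℝ) * kap (D + 1 - x) * gg kap x) D,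
      ← sum_range_reflect]
    refine sum_congr rfl fun l hl => ?_
    rw [mem_range] at hl
    have h2 : D + 1 - (D - 1 - l) = l + 2 := by omega
    rw [h2]
    push_cast
    rfl
  rw [h1]
  field_simp

section

variable {kap : ℕ → ℝ} {m : ℕ → ℕ} {e : ℕ → ℕ → ℕ} {t : ℕ → ℕ}

theorem pow_inv_lim (hm : Tendsto m atTop atTop) {k : ℕ} (hk : k ≠ 0) :
    Tendsto (fun i => ((m i : ℝ) ^ k)⁻¹) atTop (𝓝 0) := by
  have h1 : Tendsto (fun i => (m i : ℝ)) atTop atTop := tendsto_natCast_atTop_atTop.comp hm
  exact tendsto_inv_atTop_zero.comp ((tendsto_pow_atTop hk).comp h1)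

theorem sum_lim (hm : Tendsto m atTop atTop)
    (hk : ∀ x, Tendsto (fun i => (cnt (e i) (t i) x : ℝ) / (m i : ℝ) ^ x) atTop (𝓝 (kap x)))
    (k : ℕ) (hk0 : k ≠ 0) : Tendsto (fun i =>
      ((∑ s ∈ (range (t i)).filter (fun s => e i s ∣ k), e i s : ℕ) : ℝ) / (m i : ℝ) ^ k) atTop
      (𝓝 (k * kap k)) := by
  have h1 : ∀ i, ((∑ s ∈ (range (t i)).filter (fun s => e i s ∣ k), e i s : ℕ) : ℝ) / (m i : ℝ) ^ k =
      ∑ x ∈ k.divisors, (x : ℝ) * ((cnt (e i) (t i) x : ℝ) / (m i : ℝ) ^ k) := by
    intro i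
    rw [sum_dvd _ _ _ hk0]
    push_cast
    rw [sum_div]
    refine sum_congr rfl fun x _ => ?_
    ring
  have h2 : ((k : ℝ) * kap k) = ∑ x ∈ k.divisors, if x = k then (x : ℝ) * kap x else 0 := by
    rw [sum_ite_eq' k.divisors k]
    rw [if_pos (Nat.mem_divisors_self k hk0)]
  rw [tendsto_congr h1, h2]
  refine tendsto_finsetSum _ fun x hx => ?_
  split_ifs with hxk
  · subst hxk
    exact (hk x).const_mul _
  · have hlt : x < k := lt_of_le_of_ne (Nat.divisor_le hx) hxk
    have h3 : Tendsto (fun i => (x : ℝ) * (((cnt (e i) (t i) x : ℝ) / (m i : ℝ) ^ x) *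
        ((m i : ℝ) ^ (k - x))⁻¹)) atTop (𝓝 ((x : ℝ) * (kap x * 0))) :=
      ((hk x).mul (pow_inv_lim hm (by omega))).const_mul _
    rw [mul_zero, mul_zero] at h3
    refine h3.congr' ?_
    filter_upwards [hm.eventually_ge_atTop 1] with i hi
    have hmi : (0 : ℝ) < m i := by exact_mod_cast hi
    have h4 : (m i : ℝ) ^ k = (m i : ℝ) ^ x * (m i : ℝ) ^ (k - x) := by
      rw [← pow_add]
      congr 1
      omega
    rw [h4]
    field_simp

theorem lim_A (hm : Tendsto m atTop atTop) (he : ∀ i s, 2 ≤ e i s)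
    (hk : ∀ x, Tendsto (fun i => (cnt (e i) (t i) x : ℝ) / (m i : ℝ) ^ x) atTop (𝓝 (kap x)))
    (D : ℕ) : Tendsto (fun i => (A (e i) (m i) (t i) D : ℝ) / (m i : ℝ) ^ D) atTop
      (𝓝 (gg kap D)) := by
  have he1 : ∀ i s, 1 ≤ e i s := fun i s => by have := he i s; omega
  induction D using Nat.strong_induction_on with
  | _ D ih =>
    rcases D with _ | D
    · rw [gg_zero]
      refine tendsto_const_nhds.congr fun i => ?_
      rw [A_deg_zero (he1 i)]
      simp
    · -- the coefficients
      have hc : ∀ l, Tendsto (fun i => ((m i : ℝ) -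
          ((∑ s ∈ (range (t i)).filter (fun s => e i s ∣ l + 1), e i s : ℕ) : ℝ)) /
            (m i : ℝ) ^ (l + 1)) atTop (𝓝 (if l = 0 then 1 else -(((l : ℝ) + 1) * kap (l + 1)))) := by
        intro l
        have h1 := sum_lim hm hk (l + 1) (by omega)
        rcases Nat.eq_zero_or_pos l with hl | hl
        · subst hl
          rw [if_pos rfl]
          have h2 : ∀ i, ∑ s ∈ (range (t i)).filter (fun s => e i s ∣ 0 + 1), e i s = 0 := by
            intro i
            refine sum_eq_zero fun s hs => ?_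
            have h3 := Nat.dvd_one.1 (mem_filter.1 hs).2
            have h4 := he i s
            omega
          refine (tendsto_const_nhds (x := (1 : ℝ))).congr' ?_
          filter_upwards [hm.eventually_ge_atTop 1] with i hi
          have hmi : (0 : ℝ) < m i := by exact_mod_cast hi
          rw [h2]
          push_cast
          rw [sub_zero, pow_one, div_self hmi.ne']
        · rw [if_neg (by omega)]
          have h2 : Tendsto (fun i => ((m i : ℝ) ^ l)⁻¹ -
              ((∑ s ∈ (range (t i)).filter (fun s => e i s ∣ l + 1), e i s : ℕ) : ℝ) /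
                (m i : ℝ) ^ (l + 1)) atTop (𝓝 (0 - ((l + 1 : ℕ) : ℝ) * kap (l + 1))) :=
            (pow_inv_lim hm (by omega)).sub h1
          rw [zero_sub] at h2
          push_cast at h2 ⊢
          refine h2.congr' ?_
          filter_upwards [hm.eventually_ge_atTop 1] with i hi
          have hmi : (0 : ℝ) < m i := by exact_mod_cast hi
          rw [sub_div, pow_succ (m i : ℝ) l]
          congr 1
          field_simp
      have h1 : Tendsto (fun i => ∑ l ∈ range (D + 1), (((m i : ℝ) -
          ((∑ s ∈ (range (t i)).filter (fun s => e i s ∣ l + 1), e i s : ℕ) : ℝ)) /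
            (m i : ℝ) ^ (l + 1)) * ((A (e i) (m i) (t i) (D - l) : ℝ) / (m i : ℝ) ^ (D - l))) atTop
          (𝓝 (∑ l ∈ range (D + 1), (if l = 0 then 1 else -(((l : ℝ) + 1) * kap (l + 1))) *
            gg kap (D - l))) :=
        tendsto_finsetSum _ fun l hl => (hc l).mul (ih (D - l) (by omega))
      have h2 : ∑ l ∈ range (D + 1), (if l = 0 then 1 else -(((l : ℝ) + 1) * kap (l + 1))) *
            gg kap (D - l) = ((D : ℝ) + 1) * gg kap (D + 1) := by
        rw [gg_succ, sum_range_succ']
        simp only [if_true, Nat.sub_zero, one_mul, Nat.succ_ne_zero, if_false]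
        rw [add_comm, sub_eq_add_neg, ← sum_neg_distrib]
        congr 1
        refine sum_congr rfl fun l hl => ?_
        have h3 : D - (l + 1) = D - 1 - l := by omega
        rw [h3]
        push_cast
        ring
      rw [h2] at h1
      have h3 := h1.const_mul (((D : ℝ) + 1)⁻¹)
      rw [← mul_assoc, inv_mul_cancel₀ (by positivity), one_mul] at h3
      refine h3.congr' ?_
      filter_upwards [hm.eventually_ge_atTop 1] with i hi
      have hmi : (0 : ℝ) < m i := by exact_mod_cast hi
      have h4 := congrArg (Int.cast (R := ℝ)) (A_euler (he1 i) (m i) (t i) D hi)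
      push_cast at h4
      rw [inv_mul_eq_div, div_eq_div_iff (by positivity) (by positivity), mul_comm (A _ _ _ _ : ℝ),
        h4, sum_mul]
      refine sum_congr rfl fun l hl => ?_
      rw [mem_range] at hl
      have h5 : (m i : ℝ) ^ (D + 1) = (m i : ℝ) ^ (l + 1) * (m i : ℝ) ^ (D - l) := by
        rw [← pow_add]
        congr 1
        omega
      rw [h5]
      push_cast
      field_simp

end

end Pool.Agent.GD.FIN
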