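import Pool.Agent.GD.Fin.Final
import Pool.Agent.GD.ST.Fro

/-!
# General d, the final part: `TargetZero` and the complete answer
-/

set_option autoImplicit false

namespace Pool.Agent.GD.FIN

open Finset Pool.Agent.XD Pool.Agent.H18.Fat Pool.Agent.H21.HD Pool.Agent.H21.NX

theorem gg_pos_of_zero {kap : ℕ → ℝ} (h : ∀ x, kap x = 0) (D : ℕ) : 0 < gg kap D := by
  induction D with
  | zero =>
    rw [gg_zero]
    exact one_pos
  | succ D ih =>
    have h1 := gg_succ kap D
    have h2 : ∑ l ∈ range D, ((l : ℝ) + 2) * kap (l + 2) * gg kap (D - 1 - l) = 0 := by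
      refine sum_eq_zero fun l _ => ?_
      rw [h]
      ring
    rw [h2, sub_zero] at h1
    by_contra hc
    push Not at hc
    have h3 : ((D : ℝ) + 1) * gg kap (D + 1) ≤ 0 :=
      mul_nonpos_of_nonneg_of_nonpos (by positivity) hc
    linarith

theorem exists_crit {d : ℕ} {kap : ℕ → ℝ} (h0 : ∀ x, 0 ≤ kap x)
    (hs : ∀ x, kap x ≠ 0 → 2 ≤ x ∧ x < d) (hd : gg kap d = 0) (hp : ∀ D < d, 0 < gg kap D) :
    ∃ e, Crit d e kap := by
  classical
  have hne : ((range d).filter fun x => kap x ≠ 0).Nonempty := by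
    by_contra hc
    rw [not_nonempty_iff_eq_empty, filter_eq_empty_iff] at hc
    have h1 : ∀ x, kap x = 0 := by
      intro x
      by_contra hx
      exact hc (mem_range.2 (hs x hx).2) hx
    have h2 := gg_pos_of_zero h1 d
    rw [hd] at h2
    exact lt_irrefl _ h2
  have h1 := mem_filter.1 (max'_mem _ hne)
  refine ⟨_, h0, fun x hx => ⟨(hs x hx).1, ?_⟩, lt_of_le_of_ne (h0 _) (Ne.symm h1.2),
    (hs _ h1.2).1, (hs _ h1.2).2, hd, hp⟩
  exact le_max' _ _ (mem_filter.2 ⟨mem_range.2 (hs x hx).2, hx⟩)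

theorem zero_of_target (hT : TargetZero) (d : ℕ) : Zero d := by
  classical
  intro kap h0 hs hd hp
  obtain ⟨x₀, hcrit⟩ := exists_crit h0 hs hd hp
  obtain ⟨η, n₀, hη, h⟩ := hT d x₀ kap hcrit
  refine ⟨η, n₀ + 1, hη, fun n hn e t he ht hcnt => ?_⟩
  rw [FF_eq_HL (d := d) le_rfl (by omega) (fun _ => 1) e, A_eq_vd (fun _ => 1) e]
  refine h n (by omega) _ (fun k hk => ?_) (fun x => ?_) _
  · rw [Multiset.mem_map] at hk
    obtain ⟨s, hs, rfl⟩ := hk
    exact ⟨e s, rfl, he s, ht s (Multiset.mem_range.1 hs)⟩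
  · have h1 : ((Multiset.range t).map fun i => Kd.ord (e i) ∅).count (.ord x ∅) = cnt e t x := by
      rw [Multiset.count_map]
      unfold cnt
      rw [card_def, filter_val, range_val]
      congr 1
      refine Multiset.filter_congr fun s _ => ?_
      constructor
      · intro h
        injection h with h2
        exact h2.symm
      · intro h
        rw [h]
    rw [h1]
    exact hcnt x

/-- The complete answer in degree `d` for a large number of variables. -/
theorem complete_of_target (hT : TargetZero) (d : ℕ) : ∃ n₀ : ℕ, ∀ (r k : ℕ) (m : Fin k → ℕ),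
    (∀ i, 1 ≤ m i ∧ m i ≤ d) →
    ∀ N : ℕ, N + (univ.filter fun i => m i = d).card = r + 1 → n₀ ≤ N →
      (¬ (∀ j ≤ d, 0 < fro r (fun i => d + 1 - m i) univ j) →
        ForGeneralPoints r k fun p => Module.finrank ℂ (fatForms r d p m) = 0) ∧
      ((∀ j ≤ d, 0 < fro r (fun i => d + 1 - m i) univ j) →
        ForGeneralPoints r k fun p => (Module.finrank ℂ (fatForms r d p m) : ℤ) =
          fro r (fun i => d + 1 - m i) univ d) :=
  complete (zero_of_target hT d)

end Pool.Agent.GD.FIN
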